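import Pool.Agent.TH230.Dos.Pts

/-!
# An IsoDOS set that is not a topological manifold

There are a finite connected graph with two centres, four further vertices and nine edges, and a
Jacobi matrix `J₀` on it, such that `J₀` is an isolated point of its IsoDOS set, while the same
IsoDOS set contains a two-dimensional torus. So this IsoDOS set carries no atlas modelled on
`EuclideanSpace ℝ (Fin n)`, for any `n`.
-/

set_option autoImplicit false

namespace Pool.Agent.Results.MP_24ca2e_an.IsoDosNotManifold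

open Pool.Agent.Results.MP_24ca2e_an.IsoDosSphere Pool.Agent.TH230.Dos

/-- Some IsoDOS set is not a topological manifold. -/
theorem result : ∃ (V E : Type) (_ : Fintype V) (_ : Fintype E) (_ : DecidableEq V)
    (G : Multigraph V E), G.Connected ∧ (∀ x, 2 ≤ G.degree x) ∧
    ∃ (U : G.UniversalCover) (J₀ : (V → ℝ) × (E → ℝ)), (∀ e, 0 < J₀.2 e) ∧
      (∃ O : Set ((V → ℝ) × (E → ℝ)), IsOpen O ∧ isoDOS U J₀ ∩ O = {J₀}) ∧
      (∃ f : Circle × Circle → (V → ℝ) × (E → ℝ), Continuous f ∧ Function.Injective f ∧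
        ∀ z, f z ∈ isoDOS U J₀) ∧
      ∀ n : ℕ, IsEmpty (ChartedSpace (EuclideanSpace ℝ (Fin n)) (isoDOS U J₀)) := by
  obtain ⟨ε, hε, O, hO, h1, h2⟩ := exists_isolated
  refine ⟨V, E, inferInstance, inferInstance, inferInstance, hub, hub_connected, hub_degree,
    hubCover, J1 ε, J1_pos ε hε, ⟨O, hO, ?_⟩,
    ⟨tor ε, continuous_tor ε, tor_inj ε, tor_mem ε hε⟩,
    isoDOS_no_chart ε hε O hO h1 h2⟩
  ext J
  constructor
  · rintro ⟨hJ, hJO⟩
    exact h2 J hJO hJ
  · rintro rfl
    exact ⟨⟨J1_pos ε hε, fun _ _ => rfl⟩, h1⟩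

end Pool.Agent.Results.MP_24ca2e_an.IsoDosNotManifold
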